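import Pool.Agent.K3h44.RQ.Stm2

/-!
# Project RQ, brick CYX: a field with the bundled properties is a cyclotomic extension
-/

set_option autoImplicit false

namespace Pool.Agent.K3h60.RQ

open NumberField Pool.Agent.K3h44.RQ

/-- CYX: a field with the bundled properties is a cyclotomic extension -/
theorem t_CYX : S_CYX := by
  intro m _ L _ _ c
  rw [IsCyclotomicExtension.iff_singleton]
  refine ⟨⟨c.z, c.prim⟩, ?_⟩
  intro x
  obtain ⟨y, hy0, hy⟩ := (IsAlgebraic.exists_integral_multiple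
    ((IsFractionRing.isAlgebraic_iff ℤ ℚ L).2 (Algebra.IsAlgebraic.isAlgebraic (R := ℚ) x)))
  obtain ⟨f, hf⟩ := c.gen _ hy
  have hz : c.z ∈ Algebra.adjoin ℚ {b : L | b ^ m = 1} :=
    Algebra.subset_adjoin c.prim.pow_eq_one
  have h1 : y • x ∈ Algebra.adjoin ℚ {b : L | b ^ m = 1} := by
    rw [hf, Polynomial.aeval_eq_sum_range]
    refine Subalgebra.sum_mem _ fun i _ => ?_
    rw [zsmul_eq_mul]
    exact Subalgebra.mul_mem _ (Subalgebra.intCast_mem _ _) (Subalgebra.pow_mem _ hz _)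
  have hy0' : (y : ℚ) ≠ 0 := by exact_mod_cast hy0
  have h2 : x = (y : ℚ)⁻¹ • (y • x) := by
    rw [zsmul_eq_mul, Algebra.smul_def, ← mul_assoc, ← map_intCast (algebraMap ℚ L) y,
      ← map_mul, inv_mul_cancel₀ hy0', map_one, one_mul]
  rw [h2]
  exact Subalgebra.smul_mem _ h1 _

end Pool.Agent.K3h60.RQ
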