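import Pool.Agent.K3h44.RQ.Stm3

/-!
# Project RQ, brick J3: the third coefficient of the logarithm of a product
-/

set_option autoImplicit false

namespace Pool.Agent.K3h60.RQ

open Pool.Agent.K3h44.RQ Polynomial

section
variable {κ : Type} [Field κ]

/-- the Euler derivation `X f'` -/
noncomputable def DD (f : κ[X]) : κ[X] := X * derivative f

theorem DD_mul (f g : κ[X]) : DD (f * g) = DD f * g + f * DD g := by
  simp only [DD, derivative_mul]
  ring

theorem DD_add (f g : κ[X]) : DD (f + g) = DD f + DD g := by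
  simp only [DD, derivative_add]
  ring

theorem DD_CX (a : κ) (r : ℕ) : DD (C a * X ^ r) = C ((r : κ) * a) * X ^ r := by
  unfold DD
  rw [derivative_C_mul, derivative_X_pow]
  rcases r with _ | r
  · simp
  · simp only [Nat.add_sub_cancel, C_mul, map_natCast, pow_succ]
    ring

theorem DD_C (a : κ) : DD (C a) = 0 := by simp [DD]

/-- the third cumulant at `1` -/
noncomputable def LL (f : κ[X]) : κ :=
  (DD (DD (DD f))).eval 1 / f.eval 1 -
    3 * ((DD (DD f)).eval 1 / f.eval 1) * ((DD f).eval 1 / f.eval 1) +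
    2 * ((DD f).eval 1 / f.eval 1) ^ 3

theorem LL_mul (f g : κ[X]) (hf : f.eval 1 ≠ 0) (hg : g.eval 1 ≠ 0) :
    LL (f * g) = LL f + LL g := by
  unfold LL
  simp only [DD_mul, DD_add, eval_add, eval_mul]
  field_simp
  ring

theorem LL_one : LL (1 : κ[X]) = 0 := by
  have h : DD (1 : κ[X]) = 0 := by simp [DD]
  have h0 : DD (0 : κ[X]) = 0 := by simp [DD]
  simp [LL, h, h0]

theorem LL_prod {ι : Type} (H : Finset ι) (f : ι → κ[X]) (hf : ∀ t ∈ H, (f t).eval 1 ≠ 0) :
    LL (∏ t ∈ H, f t) = ∑ t ∈ H, LL (f t) := by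
  classical
  induction H using Finset.induction_on with
  | empty => simp [LL_one]
  | insert a s ha ih =>
    rw [Finset.prod_insert ha, Finset.sum_insert ha, LL_mul, ih]
    · intro t ht
      exact hf t (Finset.mem_insert_of_mem ht)
    · exact hf a (Finset.mem_insert_self _ _)
    · rw [eval_prod, Finset.prod_ne_zero_iff]
      intro t ht
      exact hf t (Finset.mem_insert_of_mem ht)

theorem LL_lin (x y : κ) (r : ℕ) (h : x + y ≠ 0) :
    LL (C x + C y * X ^ r) = (r : κ) ^ 3 * (x * y * (x - y) / (x + y) ^ 3) := by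
  have h0 : (C x + C y * X ^ r : κ[X]).eval 1 = x + y := by simp
  have h1 : DD (C x + C y * X ^ r) = C ((r : κ) * y) * X ^ r := by
    rw [DD_add, DD_C, DD_CX, zero_add]
  unfold LL
  rw [h1, DD_CX, DD_CX, h0]
  simp only [eval_mul, eval_C, eval_pow, eval_X, one_pow, mul_one]
  field_simp
  ring

theorem DD_X1 (n : ℕ) (G : κ[X]) :
    ∃ G' : κ[X], DD ((X - 1) ^ (n + 1) * G) = (X - 1) ^ n * G' := by
  refine ⟨(n + 1 : κ[X]) * X * G + (X - 1) * (X * derivative G), ?_⟩
  unfold DD
  rw [derivative_mul, derivative_pow]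
  simp only [derivative_sub, derivative_X, derivative_one, sub_zero, mul_one,
    Nat.add_sub_cancel, Nat.cast_add, Nat.cast_one, map_add, map_natCast, map_one]
  ring

end

/-- J3: the third coefficient of the logarithm of a product of linear polynomials in powers of the
variable -/
theorem t_J3 : S_J3 := by
  intro κ _ p _ hp h5 ι H x y r ρ i hρ hd hxy
  have hdvd : (X - 1 : κ[X]) ^ 4 ∣
      (∏ t ∈ H, (C (x t) + C (y t) * X ^ (r t))) - C ρ * X ^ i :=
    (pow_dvd_pow _ (by omega)).trans hd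
  obtain ⟨G, hG⟩ := hdvd
  set F : κ[X] := ∏ t ∈ H, (C (x t) + C (y t) * X ^ (r t)) with hF
  have hF1 : F = C ρ * X ^ i + (X - 1) ^ 4 * G := by rw [← hG]; ring
  obtain ⟨G1, hG1⟩ := DD_X1 3 G
  obtain ⟨G2, hG2⟩ := DD_X1 2 G1
  obtain ⟨G3, hG3⟩ := DD_X1 1 G2
  have e1 : DD F = C ((i : κ) * ρ) * X ^ i + (X - 1) ^ 3 * G1 := by
    rw [hF1, DD_add, DD_CX, ← hG1]
  have e2 : DD (DD F) = C ((i : κ) * ((i : κ) * ρ)) * X ^ i + (X - 1) ^ 2 * G2 := by
    rw [e1, DD_add, DD_CX, ← hG2]
  have e3 : DD (DD (DD F)) = C ((i : κ) * ((i : κ) * ((i : κ) * ρ))) * X ^ i +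
      (X - 1) ^ 1 * G3 := by
    rw [e2, DD_add, DD_CX, ← hG3]
  have hL : LL F = 0 := by
    unfold LL
    rw [e3, e2, e1]
    have h0 : F.eval 1 = ρ := by rw [hF1]; simp
    rw [h0]
    simp only [eval_add, eval_mul, eval_C, eval_pow, eval_X, one_pow, mul_one, eval_sub, eval_one,
      sub_self]
    field_simp
    ring
  rw [hF, LL_prod] at hL
  · rw [← hL]
    refine Finset.sum_congr rfl fun t ht => ?_
    rw [LL_lin _ _ _ (hxy t ht)]
  · intro t ht
    simpa using hxy t ht

end Pool.Agent.K3h60.RQ
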